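import Mathlib
import Pool.Agent.H19.FreeBall

set_option autoImplicit false

namespace Pool.Agent.Results.MP_689404_al.SphereFormula

open Pool.Agent.H19.FreeBall

/-- `a_r(n)`: the largest size of a subset of the sphere of radius `n ≥ 1` of `F_r` that freely
generates a subgroup is `(2r-1)^k` for `n = 2k` and `r (2r-1)^k` for `n = 2k+1`. -/
theorem result (r n : ℕ) (hr : 1 ≤ r) (hn : 1 ≤ n) :
    IsGreatest {m : ℕ | ∃ A : Finset (FreeGroup (Fin r)), A.card = m ∧ (∀ x ∈ A, x.norm = n) ∧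
        Function.Injective (FreeGroup.lift (fun x : A => (x : FreeGroup (Fin r))))}
      (if n % 2 = 0 then (2 * r - 1) ^ (n / 2) else r * (2 * r - 1) ^ (n / 2)) := by
  split_ifs with h2
  · obtain ⟨k, rfl⟩ : ∃ k, n = 2 * (k + 1) := ⟨n / 2 - 1, by omega⟩
    rw [show 2 * (k + 1) / 2 = k + 1 by omega]
    refine ⟨lower_even hr k, ?_⟩
    rintro _ ⟨Y, rfl, h5, h6⟩
    exact upper_even hr _ Y h6 fun x hx => (h5 x hx).le
  · obtain ⟨k, rfl⟩ : ∃ k, n = 2 * k + 1 := ⟨n / 2, by omega⟩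
    rw [show (2 * k + 1) / 2 = k by omega]
    refine ⟨lower_odd k, ?_⟩
    rintro _ ⟨Y, rfl, h5, h6⟩
    exact upper_odd hr _ Y h6 fun x hx => (h5 x hx).le

end Pool.Agent.Results.MP_689404_al.SphereFormula
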